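import Mathlib

/-!
# MP_5ee2d0_ag: linearity of the least b-divisors (worklog 3719.2, 3732.5, 3796.5)

`D` is the set of the prime divisors over `X`, `N` the set of the b-divisors `y ≥ 0` such that `L - y` is
b-nef, `p y z` the number `(L - y).(L - z)`, divided by `L^2`. `B` is an element of `N`, `g ≤ B`; the
hypothesis `bound` says that no multiple `c B`, `c > 1`, can be reached in the direction `g`: it follows from
Siu's criterion and from the maximality of a functional `θ` with `θ g = θ B`. For `0 ≤ t ≤ 1` the element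
`x t` is the least element of `N` which is at least `t g`. Conclusion: `x t = t B`.
-/

namespace Pool.Agent.H81.XF

/-- The hypotheses. -/
structure Lin (D : Type*) where
  N : Set (D → ℝ)
  p : (D → ℝ) → (D → ℝ) → ℝ
  B : D → ℝ
  g : D → ℝ
  zero_mem : (0 : D → ℝ) ∈ N
  mem : B ∈ N
  g_le : g ≤ B
  conv : ∀ y ∈ N, ∀ z ∈ N, ∀ s : ℝ, 0 ≤ s → s ≤ 1 → s • y + (1 - s) • z ∈ N
  symm : ∀ y ∈ N, ∀ z ∈ N, p y z = p z y
  one : p 0 0 = 1
  affine : ∀ y ∈ N, ∀ z ∈ N, ∀ w ∈ N, ∀ s : ℝ, 0 ≤ s → s ≤ 1 →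
    p (s • y + (1 - s) • z) w = s * p y w + (1 - s) * p z w
  /-- the product of an effective b-divisor and a b-nef class is not negative -/
  mono : ∀ y ∈ N, ∀ z ∈ N, ∀ w ∈ N, y ≤ z → p z w ≤ p y w
  nonneg : ∀ y ∈ N, 0 ≤ p y y
  /-- between `t g` and `t B` the product with `L` does not change -/
  level : ∀ y ∈ N, ∀ t : ℝ, 0 ≤ t → t ≤ 1 → t • g ≤ y → y ≤ t • B → p 0 y = p 0 (t • B)
  /-- Hodge index theorem -/
  hodge : ∀ y ∈ N, ∀ z ∈ N, y ≤ z → p 0 y = p 0 z → 0 ≤ p y y - 2 * p y z + p z z → y = z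
  /-- Siu's criterion and maximality -/
  bound : ∀ y ∈ N, ∀ t : ℝ, 0 < t → t ≤ 1 → t • g ≤ y → y ≤ t • B → ∀ u : ℝ, 0 < u →
    2 * u * p 0 y < (1 + u) * p y y → (1 + u) * t ≤ 1
  /-- minimal singularities of `L - t g` -/
  least : ∀ t : ℝ, 0 ≤ t → t ≤ 1 → ∃ x ∈ N, t • g ≤ x ∧ ∀ y ∈ N, t • g ≤ y → x ≤ y

namespace Lin

variable {D : Type*} (A : Lin D)

theorem smul_mem {y : D → ℝ} (hy : y ∈ A.N) {s : ℝ} (h0 : 0 ≤ s) (h1 : s ≤ 1) : s • y ∈ A.N := by
  have h := A.conv y hy 0 A.zero_mem s h0 h1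
  simpa using h

theorem p_smul {y w : D → ℝ} (hy : y ∈ A.N) (hw : w ∈ A.N) {s : ℝ} (h0 : 0 ≤ s) (h1 : s ≤ 1) :
    A.p (s • y) w = s * A.p y w + (1 - s) * A.p 0 w := by
  have h := A.affine y hy 0 A.zero_mem w hw s h0 h1
  simpa using h

/-- `(L - y)^2 ≤ 2 (1 - t) (L - y).L` for `t g ≤ y ≤ t B`. -/
theorem sq_le {y : D → ℝ} (hy : y ∈ A.N) {t : ℝ} (h0 : 0 < t) (h1 : t ≤ 1) (hg : t • A.g ≤ y)
    (hB : y ≤ t • A.B) : A.p y y ≤ 2 * (1 - t) * A.p 0 y := by
  by_contra hcon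
  push Not at hcon
  set a := A.p y y with ha
  set b := A.p 0 y with hb
  -- `u` a little larger than `(1 - t) / t`
  obtain ⟨e, he, hlt⟩ : ∃ e : ℝ, 0 < e ∧ 2 * ((1 - t) / t + e) * b < (1 + ((1 - t) / t + e)) * a := by
    have hgap : 0 < (a - 2 * (1 - t) * b) / t := div_pos (by linarith) h0
    refine ⟨(a - 2 * (1 - t) * b) / t / (2 * (|2 * b - a| + 1)), by positivity, ?_⟩
    set δ := (a - 2 * (1 - t) * b) / t with hδ
    have h2 : δ / (2 * (|2 * b - a| + 1)) * (2 * b - a) ≤ δ / 2 := by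
      have h3 : (2 * b - a) ≤ |2 * b - a| + 1 := by linarith [le_abs_self (2 * b - a)]
      have h4 : 0 < |2 * b - a| + 1 := by positivity
      calc δ / (2 * (|2 * b - a| + 1)) * (2 * b - a)
          ≤ δ / (2 * (|2 * b - a| + 1)) * (|2 * b - a| + 1) :=
            mul_le_mul_of_nonneg_left h3 (by positivity)
        _ = δ / 2 := by field_simp
    have h5 : (1 + (1 - t) / t) * a - 2 * ((1 - t) / t) * b = δ := by
      rw [hδ]; field_simp; ring
    nlinarith
  have hu : 0 < (1 - t) / t + e := by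
    have : 0 ≤ (1 - t) / t := div_nonneg (by linarith) h0.le
    linarith
  have h := A.bound y hy t h0 h1 hg hB _ hu hlt
  have h2 : (1 + ((1 - t) / t + e)) * t = 1 + e * t := by field_simp; ring
  rw [h2] at h
  nlinarith

theorem sq_B : A.p A.B A.B = 0 := by
  have h := A.sq_le A.mem (t := 1) one_pos le_rfl (by simpa using A.g_le) (by simp)
  have h2 := A.nonneg A.B A.mem
  have h3 : 2 * (1 - (1 : ℝ)) * A.p 0 A.B = 0 := by ring
  linarith

/-- An element between `g` and `B` is `B`. -/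
theorem eq_B {y : D → ℝ} (hy : y ∈ A.N) (hg : A.g ≤ y) (hB : y ≤ A.B) : y = A.B := by
  have h := A.sq_le hy (t := 1) one_pos le_rfl (by simpa using hg) (by simpa using hB)
  have h3 : 2 * (1 - (1 : ℝ)) * A.p 0 y = 0 := by ring
  have h4 := A.nonneg y hy
  have h5 := A.mono y hy A.B A.mem y hy hB
  have h6 := A.mono y hy A.B A.mem A.B A.mem hB
  rw [A.sq_B] at h6
  have h7 := A.symm A.B A.mem y hy
  refine A.hodge y hy A.B A.mem hB ?_ ?_
  · have := A.level y hy 1 zero_le_one le_rfl (by simpa using hg) (by simpa using hB)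
    simpa using this
  · rw [A.sq_B]
    linarith

/-- **Linearity.** -/
theorem linear {t : ℝ} (h0 : 0 ≤ t) (h1 : t ≤ 1) {y : D → ℝ} (hy : y ∈ A.N) (hgy : t • A.g ≤ y) :
    t • A.B ≤ y := by
  choose! x hxN hxg hxle using A.least
  have hgB : ∀ t : ℝ, 0 ≤ t → t • A.g ≤ t • A.B := fun t h => smul_le_smul_of_nonneg_left A.g_le h
  have hxB : ∀ t, 0 ≤ t → t ≤ 1 → x t ≤ t • A.B := fun t h0 h1 =>
    hxle t h0 h1 _ (A.smul_mem A.mem h0 h1) (hgB t h0)
  set l := A.p 0 A.B with hl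
  have hBl : A.p A.B 0 = l := A.symm _ A.mem _ A.zero_mem
  -- products with `L`
  have hlev : ∀ t, 0 ≤ t → t ≤ 1 → A.p 0 (x t) = 1 - t + t * l := by
    intro t h0 h1
    rw [A.level _ (hxN t h0 h1) t h0 h1 (hxg t h0 h1) (hxB t h0 h1),
      A.symm _ A.zero_mem _ (A.smul_mem A.mem h0 h1), A.p_smul A.mem A.zero_mem h0 h1, hBl, A.one]
    ring
  -- `(L - x t).(L - B)`, lower bound
  have hlow : ∀ t, 0 ≤ t → t ≤ 1 → (1 - t) * l ≤ A.p (x t) A.B := by
    intro t h0 h1
    have h := A.mono _ (hxN t h0 h1) _ (A.smul_mem A.mem h0 h1) _ A.mem (hxB t h0 h1)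
    rwa [A.p_smul A.mem A.mem h0 h1, A.sq_B, mul_zero, zero_add] at h
  have hsq : ∀ t, 0 ≤ t → t ≤ 1 →
      t * A.p (x t) A.B + (1 - t) * A.p 0 (x t) ≤ A.p (x t) (x t) := by
    intro t h0 h1
    have h := A.mono _ (hxN t h0 h1) _ (A.smul_mem A.mem h0 h1) _ (hxN t h0 h1) (hxB t h0 h1)
    rwa [A.p_smul A.mem (hxN t h0 h1) h0 h1, A.symm _ A.mem _ (hxN t h0 h1)] at h
  have hup : ∀ t, 0 < t → t ≤ 1 → t * (A.p (x t) A.B - (1 - t) * l) ≤ (1 - t) ^ 2 := by
    intro t h0 h1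
    have h2 := hsq t h0.le h1
    have h3 := A.sq_le (hxN t h0.le h1) h0 h1 (hxg t h0.le h1) (hxB t h0.le h1)
    rw [hlev t h0.le h1] at h2 h3
    nlinarith
  -- concavity
  have hconc : ∀ t t', 0 ≤ t → t ≤ t' → t' < 1 →
      (1 - t') / (1 - t) * (A.p (x t) A.B - (1 - t) * l) ≤ A.p (x t') A.B - (1 - t') * l := by
    intro t t' h0 htt h1
    have hlt : 0 < 1 - t := by linarith
    set a := (1 - t') / (1 - t) with ha
    have ha0 : 0 ≤ a := div_nonneg (by linarith) hlt.le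
    have ha1 : a ≤ 1 := by rw [ha, div_le_one hlt]; linarith
    have has : a * (1 - t) = 1 - t' := by rw [ha]; field_simp
    have hc := A.conv _ (hxN t h0 (by linarith)) _ A.mem a ha0 ha1
    have hcg : t' • A.g ≤ a • x t + (1 - a) • A.B := by
      have e1 : t' • A.g = a • (t • A.g) + (1 - a) • A.g := by
        rw [smul_smul, ← add_smul]; congr 1; linarith
      rw [e1]
      exact add_le_add (smul_le_smul_of_nonneg_left (hxg t h0 (by linarith)) ha0)
        (smul_le_smul_of_nonneg_left A.g_le (by linarith))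
    have hle := hxle t' (by linarith) h1.le _ hc hcg
    have h6 := A.mono _ (hxN t' (by linarith) h1.le) _ hc _ A.mem hle
    rw [A.affine _ (hxN t h0 (by linarith)) _ A.mem _ A.mem a ha0 ha1, A.sq_B, mul_zero, add_zero] at h6
    have h7 : a * ((1 - t) * l) = (1 - t') * l := by rw [← mul_assoc, has]
    nlinarith
  have hzero : ∀ t, 0 ≤ t → t < 1 → A.p (x t) A.B = (1 - t) * l := by
    intro t h0 h1
    refine le_antisymm ?_ (hlow t h0 h1.le)
    by_contra hcon
    push Not at hcon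
    set γ := A.p (x t) A.B - (1 - t) * l with hγ
    have hγ0 : 0 < γ := by linarith
    have hlt : 0 < 1 - t := by linarith
    have key : ∀ t', t ≤ t' → t' < 1 → 0 < t' → t' * γ ≤ (1 - t) * (1 - t') := by
      intro t' htt h1' h0'
      have h2 := hconc t t' h0 htt h1'
      have h3 := hup t' h0' h1'.le
      have h4 : t' * ((1 - t') / (1 - t) * γ) ≤ (1 - t') ^ 2 :=
        le_trans (mul_le_mul_of_nonneg_left h2 h0'.le) h3
      have h5 : t' * γ * (1 - t') ≤ (1 - t) * (1 - t') * (1 - t') := by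
        have : t' * γ * (1 - t') = (1 - t) * (t' * ((1 - t') / (1 - t) * γ)) := by field_simp
        rw [this]
        nlinarith
      exact le_of_mul_le_mul_right h5 (by linarith)
    obtain ⟨t', hs1, hs2, hs3, hs4⟩ : ∃ t', t ≤ t' ∧ t' < 1 ∧ 1 / 2 ≤ t' ∧ (1 - t) * (1 - t') < γ / 2 := by
      refine ⟨max (max t (1 / 2)) (1 - γ / 4), le_trans (le_max_left _ _) (le_max_left _ _), ?_,
        le_trans (le_max_right _ _) (le_max_left _ _), ?_⟩
      · rw [max_lt_iff, max_lt_iff]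
        exact ⟨⟨h1, by norm_num⟩, by linarith⟩
      · have h2 : 1 - γ / 4 ≤ max (max t (1 / 2)) (1 - γ / 4) := le_max_right _ _
        have h3 : 1 - max (max t (1 / 2)) (1 - γ / 4) ≤ γ / 4 := by linarith
        have h5 : max (max t (1 / 2)) (1 - γ / 4) ≤ 1 := by
          rw [max_le_iff, max_le_iff]
          exact ⟨⟨h1.le, by norm_num⟩, by linarith⟩
        have h4 : (1 - t) * (1 - max (max t (1 / 2)) (1 - γ / 4)) ≤ 1 * (γ / 4) :=
          mul_le_mul (by linarith) h3 (by linarith) zero_le_one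
        linarith
    have := key t' hs1 hs2 (by linarith)
    nlinarith
  have hxeq : ∀ t, 0 ≤ t → t ≤ 1 → x t = t • A.B := by
    intro t h0 h1
    rcases h1.lt_or_eq with h | h
    · have hm := A.smul_mem A.mem h0 h1
      have hx := hxN t h0 h1
      refine A.hodge _ hx _ hm (hxB t h0 h1) (A.level _ hx t h0 h1 (hxg t h0 h1) (hxB t h0 h1)) ?_
      have e1 : A.p (x t) (t • A.B) = t * ((1 - t) * l) + (1 - t) * (1 - t + t * l) := by
        rw [A.symm _ hx _ hm, A.p_smul A.mem hx h0 h1, A.symm _ A.mem _ hx, hzero t h0 h, hlev t h0 h1]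
      have e2 : A.p (t • A.B) (t • A.B) = t * ((1 - t) * l) + (1 - t) * (1 - t + t * l) := by
        rw [A.p_smul A.mem hm h0 h1, A.symm _ A.mem _ hm, A.p_smul A.mem A.mem h0 h1, A.sq_B,
          A.symm _ A.zero_mem _ hm, A.p_smul A.mem A.zero_mem h0 h1, hBl, A.one]
        ring
      have h2 := hsq t h0 h1
      rw [hzero t h0 h, hlev t h0 h1] at h2
      rw [e1, e2]
      linarith
    · subst h
      have := A.eq_B (hxN 1 h0 h1) (by simpa using hxg 1 h0 h1) (by simpa using hxB 1 h0 h1)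
      rw [this, one_smul]
  rw [← hxeq t h0 h1]
  exact hxle t h0 h1 y hy hgy

end Lin

end Pool.Agent.H81.XF

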